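import Pool.Agent.Helper23.SP.St.Stubs

set_option autoImplicit false

/-!
# SP-C: the reading lemmas applied to windows of a process
-/

namespace Pool.Agent.Helper43.SP

open Finset
open Pool.Agent.Helper23.SP
open Pool.Agent.Helper23.SP.St (read_coll read_cell card_put g_put_lt g_put_self g_put_gt pass_put)

variable {El V : Type} {k b U : ℕ} [NeZero b]

/-- the key of an element -/
def keyOf (r : Fin k) (ω : Om El k b U) (e : El) (y : Fin b) : Fin k → Fin b :=
  Function.update (pre r.val (ω.1 e)) r y

omit [NeZero b] in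
lemma pre_self [NeZero b] (r : Fin k) (x : Fin k → Fin b) : pre r.val x r = 0 := by
  simp [pre]

lemma keyOf_inj (r : Fin k) (ω : Om El k b U) (e : El) (y : Fin b) (e' : El) (y' : Fin b)
    (h : keyOf r ω e y = keyOf r ω e' y') :
    pre r.val (ω.1 e) = pre r.val (ω.1 e') ∧ y = y' := by
  unfold keyOf at h
  constructor
  · funext i
    by_cases hi : i = r
    · subst hi
      rw [pre_self, pre_self]
    · have := congrFun h i
      rwa [Function.update_of_ne hi, Function.update_of_ne hi] at this
  · have := congrFun h r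
    rwa [Function.update_self, Function.update_self] at this

lemma pre_put (r : Fin k) (ω : Om El k b U) (ξ : (El → Fin b) × ((Fin k → Fin b) → Fin U))
    (e : El) : pre r.val ((put r ω ξ).1 e) = pre r.val (ω.1 e) := by
  funext i
  unfold pre put
  by_cases hi : i.val < r.val
  · have : i ≠ r := by
      intro h; subst h; exact lt_irrefl _ hi
    simp [hi, Function.update_of_ne this]
  · simp [hi]

lemma pre_succ_put (r : Fin k) (ω : Om El k b U)
    (ξ : (El → Fin b) × ((Fin k → Fin b) → Fin U)) (e : El) (c : Fin k → Fin b) :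
    pre (r.val + 1) ((put r ω ξ).1 e) = pre (r.val + 1) c ↔
      pre r.val (ω.1 e) = pre r.val c ∧ ξ.1 e = c r := by
  constructor
  · intro h
    constructor
    · funext i
      by_cases hi : i.val < r.val
      · have h1 := congrFun h i
        have hne : i ≠ r := by
          intro h; subst h; exact lt_irrefl _ hi
        have hi' : i.val < r.val + 1 := by omega
        simp only [pre, put, hi', if_true, Function.update_of_ne hne] at h1
        simp only [pre, hi, if_true]
        exact h1
      · simp [pre, hi]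
    · have h1 := congrFun h r
      simp only [pre, put, lt_add_iff_pos_right, zero_lt_one, if_true,
        Function.update_self] at h1
      exact h1
  · rintro ⟨h1, h2⟩
    funext i
    by_cases hi : i.val < r.val
    · have h3 := congrFun h1 i
      have hne : i ≠ r := by
        intro h; subst h; exact lt_irrefl _ hi
      have hi' : i.val < r.val + 1 := by omega
      simp only [pre, hi, if_true] at h3
      simp only [pre, put, hi', if_true, Function.update_of_ne hne]
      exact h3
    · by_cases hr : i = r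
      · subst hr
        simp only [pre, put, lt_add_iff_pos_right, zero_lt_one, if_true, Function.update_self]
        exact h2
      · have : ¬ i.val < r.val + 1 := by
          intro h
          apply hr
          apply Fin.ext
          omega
        simp [pre, this]

section win

variable [Fintype El]

open Classical in
/-- the sets read -/
noncomputable def Sof (P : Proc El k b U V) (r : Fin k) (t0 : ℕ) (ω : Om El k b U) (i : ℕ)
    (v : V) : Finset El :=
  if Pass (P.γ (t0 + i) v) ω r.val then supp (P.γ (t0 + i) v) else ∅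

/-- the transition function -/
def nxof (P : Proc El k b U V) (r : Fin k) (t0 : ℕ) (ω : Om El k b U) (i : ℕ)
    (v : V) (ξ : (El → Fin b) × ((Fin k → Fin b) → Fin U)) : V :=
  P.nx (t0 + i) v (put r ω ξ)

lemma nxof_ok (P : Proc El k b U V) {s : ℕ} (hP : P.OK s) (r : Fin k) (t0 : ℕ)
    (ω : Om El k b U) (i : ℕ) (v : V) (ξ ξ' : (El → Fin b) × ((Fin k → Fin b) → Fin U))
    (h : ∀ e ∈ Sof P r t0 ω i v, ξ.1 e = ξ'.1 e ∧
      ξ.2 (keyOf r ω e (ξ.1 e)) = ξ'.2 (keyOf r ω e (ξ'.1 e))) :
    nxof P r t0 ω i v ξ = nxof P r t0 ω i v ξ' := by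
  unfold nxof
  by_cases hp : Pass (P.γ (t0 + i) v) ω r.val
  · apply hP.full
    intro j e he
    have h1 := h e (by unfold Sof; rw [if_pos hp]; exact he)
    rcases lt_trichotomy j.val r.val with hj | hj | hj
    · rw [g_put_lt hj, g_put_lt hj]
    · have : j = r := Fin.ext hj
      subst this
      rw [g_put_self, g_put_self]
      exact h1.2
    · exact g_put_gt hj ω h1.1
  · apply hP.part (t0 + i) v _ _ r.val
    · rw [pass_put (le_refl _)]
      exact hp
    · intro j hj e _
      rw [g_put_lt hj, g_put_lt hj]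

lemma rst_eq (P : Proc El k b U V) (r : Fin k) (t0 : ℕ) (ω : Om El k b U) (v : V)
    (ξ : (El → Fin b) × ((Fin k → Fin b) → Fin U)) (i : ℕ) :
    rst (nxof P r t0 ω) v ξ i = P.st (put r ω ξ) t0 v i := by
  induction i with
  | zero => rfl
  | succ i ih =>
    rw [st_succ, ← ih]
    rfl

lemma rd_eq [DecidableEq El] (P : Proc El k b U V) (r : Fin k) (t0 : ℕ) (ω : Om El k b U) (v : V)
    (ξ : (El → Fin b) × ((Fin k → Fin b) → Fin U)) (τ : ℕ) :
    rd (Sof P r t0 ω) (nxof P r t0 ω) v ξ τ = P.rev (put r ω ξ) t0 v τ r.val := by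
  ext e
  rw [mem_rev]
  unfold rd
  rw [mem_biUnion]
  constructor
  · rintro ⟨i, hi, h⟩
    rw [rst_eq] at h
    unfold Sof at h
    split_ifs at h with hp
    · refine ⟨i, mem_range.1 hi, ?_, h⟩
      rw [pass_put (le_refl _)]
      exact hp
    · simp at h
  · rintro ⟨i, hi, hp, h⟩
    refine ⟨i, mem_range.2 hi, ?_⟩
    rw [rst_eq]
    unfold Sof
    rw [pass_put (le_refl _)] at hp
    rw [if_pos hp]
    exact h

end win

section windows

variable [Fintype El] [DecidableEq El]

open Classical in
/-- SP-C1 (from SP-A1 and SP-B). -/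
theorem coll_bad [Fintype V] [DecidableEq V] (P : Proc El k b U V) {s : ℕ} (hP : P.OK s)
    (r : Fin k) (t0 : ℕ) (v : V) (τ A B x0 : ℕ) (h : 5 * A * (B * U + A * b) ≤ x0 * b * U) :
    (univ.filter (fun ω : Om El k b U =>
      (P.rev ω t0 v τ r.val).card ≤ A ∧
      (∀ c, ((P.rev ω t0 v τ r.val).filter (fun e => pre r.val (ω.1 e) = c)).card ≤ B) ∧
      x0 + ((P.rev ω t0 v τ r.val).image (g r ω)).card ≤ (P.rev ω t0 v τ r.val).card)).card *
      2 ^ x0 ≤ Fintype.card (Om El k b U) := by
  apply card_put r
  intro ω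
  have h1 := read_coll (El := El) (G := Fin k → Fin b) (V := V) (C := Fin k → Fin b) (b := b)
    (U := U) (fun e => pre r.val (ω.1 e)) (keyOf r ω) (keyOf_inj r ω) (Sof P r t0 ω)
    (nxof P r t0 ω) (nxof_ok P hP r t0 ω) v τ A B x0 h
  refine le_trans (Nat.mul_le_mul_right _ (card_le_card ?_)) h1
  intro ξ hξ
  have hξ := (mem_filter.1 hξ).2
  refine (@mem_filter _ _ (_) _ _).2 ⟨mem_univ _, ?_⟩
  have h2 := (mem_filter.1 hξ).2
  have himg : (P.rev (put r ω ξ) t0 v τ r.val).image (g r (put r ω ξ))
      = (P.rev (put r ω ξ) t0 v τ r.val).image (fun e => ξ.2 (keyOf r ω e (ξ.1 e))) := by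
    apply image_congr
    intro e _
    exact g_put_self r ω ξ e
  simp only [pre_put] at h2
  rw [himg] at h2
  rw [rd_eq]
  exact h2

open Classical in
/-- SP-C2 (from SP-A2 and SP-B). -/
theorem cell_bad [Fintype V] [DecidableEq V] (P : Proc El k b U V) {s : ℕ} (hP : P.OK s)
    (r : Fin k) (t0 : ℕ) (v : V) (τ B x0 : ℕ) (c : Fin k → Fin b) (h : 5 * B ≤ x0 * b) :
    (univ.filter (fun ω : Om El k b U =>
      ((P.rev ω t0 v τ r.val).filter (fun e => pre r.val (ω.1 e) = pre r.val c)).card ≤ B ∧
      x0 ≤ ((P.rev ω t0 v τ r.val).filter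
        (fun e => pre (r.val + 1) (ω.1 e) = pre (r.val + 1) c)).card)).card *
      2 ^ x0 ≤ Fintype.card (Om El k b U) := by
  apply card_put r
  intro ω
  have h1 := read_cell (El := El) (G := Fin k → Fin b) (V := V) (C := Fin k → Fin b) (b := b)
    (U := U) (fun e => pre r.val (ω.1 e)) (keyOf r ω) (keyOf_inj r ω) (Sof P r t0 ω)
    (nxof P r t0 ω) (nxof_ok P hP r t0 ω) v τ B x0 h (pre r.val c) (c r)
  refine le_trans (Nat.mul_le_mul_right _ (card_le_card ?_)) h1
  intro ξ hξ
  have hξ := (mem_filter.1 hξ).2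
  refine (@mem_filter _ _ (_) _ _).2 ⟨mem_univ _, ?_⟩
  have h2 := (mem_filter.1 hξ).2
  simp only [pre_put, pre_succ_put] at h2
  rw [rd_eq]
  exact h2

end windows

end Pool.Agent.Helper43.SP
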